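import Pool.Agent.Lib.TGA_h75.Atlas

/-!
# TANK G, block END, row E6c: blowing up a finite set of classes
-/

set_option autoImplicit false

namespace Pool.Agent.TG

universe u

namespace CB

open Pool.Agent.LU2 (locV IsPar Mono le_locV locV_mono locV_le locV_inv locV_mem locV_locV)

section

variable {k K : Type u} [Field k] [Field K] [Algebra k K] {V : ValuationSubring K}

/-- The space `W` generates the principal ideal `(c)` over `O`. -/
structure Prin (V : ValuationSubring K) (O : Subalgebra k K) (W : Submodule k K) (c : K) :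
    Prop where
  ne : c ≠ 0
  div : ∀ q ∈ W, q / c ∈ O
  ex : ∃ q ∈ W, V.valuation (q / c) = 1

variable {O : Subalgebra k K} {W W' : Submodule k K} {c c' : K}

theorem Prin.one : Prin V O 1 1 := by
  refine ⟨one_ne_zero, fun q hq => ?_, 1, Submodule.one_le.1 le_rfl, ?_⟩
  · obtain ⟨a, rfl⟩ := Submodule.mem_one.1 hq
    rw [div_one]
    exact O.algebraMap_mem a
  · rw [div_one, map_one]

theorem Prin.mul (h : Prin V O W c) (h' : Prin V O W' c') : Prin V O (W * W') (c * c') := by
  refine ⟨mul_ne_zero h.ne h'.ne, fun q hq => ?_, ?_⟩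
  · induction hq using Submodule.mul_induction_on' with
    | mem_mul_mem a ha b hb =>
      rw [mul_div_mul_comm]
      exact O.mul_mem (h.div a ha) (h'.div b hb)
    | add a _ b _ ha hb => rw [add_div]; exact O.add_mem ha hb
  · obtain ⟨q, hq, h1⟩ := h.ex
    obtain ⟨q', hq', h1'⟩ := h'.ex
    refine ⟨q * q', Submodule.mul_mem_mul hq hq', ?_⟩
    rw [mul_div_mul_comm, map_mul, h1, h1', one_mul]

theorem Prin.pow (h : Prin V O W c) (n : ℕ) : Prin V O (W ^ n) (c ^ n) := by
  induction n with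
  | zero => rw [pow_zero, pow_zero]; exact Prin.one
  | succ n ih => rw [pow_succ, pow_succ]; exact ih.mul h

theorem Prin.prod {ι : Type*} (s : Finset ι) {F : ι → Submodule k K} {d : ι → K}
    (h : ∀ j ∈ s, Prin V O (F j) (d j)) : Prin V O (∏ j ∈ s, F j) (∏ j ∈ s, d j) := by
  classical
  induction s using Finset.induction_on with
  | empty => rw [Finset.prod_empty, Finset.prod_empty]; exact Prin.one
  | insert j s hj ih =>
    rw [Finset.prod_insert hj, Finset.prod_insert hj]
    exact (h j (Finset.mem_insert_self j s)).mul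
      (ih fun i hi => h i (Finset.mem_insert_of_mem hi))

theorem Prin.of_isMin {P : Submodule k K} {f : K} (hf : IsMin V P f) : Prin V (NV V P) P f :=
  ⟨hf.ne, fun _ hq => RV_le_NV (div_mem_RV hf hq), f, hf.mem, by rw [div_self hf.ne, map_one]⟩

theorem isModel_prod {ι : Type*} (s : Finset ι) {F : ι → Submodule k K}
    (h : ∀ j ∈ s, IsModel (F j)) : IsModel (∏ j ∈ s, F j) := by
  classical
  induction s using Finset.induction_on with
  | empty => rw [Finset.prod_empty]; exact IsModel.one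
  | insert j s hj ih =>
    rw [Finset.prod_insert hj]
    exact (h j (Finset.mem_insert_self j s)).mul
      (ih fun i hi => h i (Finset.mem_insert_of_mem hi))

/-- `NV V P` is integrally closed. -/
theorem ncl_NV (P : Submodule k K) : ncl (NV V P) ≤ NV V P := by
  have h := locV_ncl_locV (V := V) (ncl (RV V P))
  rw [ncl_ncl] at h
  exact (le_locV _).trans h.le

theorem locV_ncl_le_NV {B : Subalgebra k K} {P : Submodule k K} (h : B ≤ NV V P) :
    locV V (ncl B) ≤ NV V P :=
  locV_le ((ncl_mono h).trans (ncl_NV P)) fun _ hf h1 => NV_inv hf h1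

/-- The space of the exponent vector `b ≥ 0`. -/
noncomputable def clsSp {N : ℕ} (P : Submodule k K) (Q : Fin N → Submodule k K) (a : Fin N → ℕ)
    (M : ℕ) (b : Fin N → ℤ) : Submodule k K :=
  (∏ j, Q j ^ (b j).toNat) * P ^ (M - ∑ j, a j * (b j).toNat)

theorem clsSp_model {N : ℕ} {P : Submodule k K} (hP : IsModel P) {Q : Fin N → Submodule k K}
    (hQ : ∀ j, IsModel (Q j)) (a : Fin N → ℕ) (M : ℕ) (b : Fin N → ℤ) :
    IsModel (clsSp P Q a M b) :=
  (isModel_prod _ fun j _ => (hQ j).pow _).mul (hP.pow _)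

theorem clsSp_prin {N : ℕ} {P : Submodule k K} {Q : Fin N → Submodule k K} {a : Fin N → ℕ}
    {M : ℕ} {b : Fin N → ℤ} (hb : ∀ j, 0 ≤ b j) (hM : ∑ j, a j * (b j).toNat ≤ M)
    {f : K} {g : Fin N → K} (hP : Prin V O P f) (hQ : ∀ j, Prin V O (Q j) (g j * f ^ a j)) :
    Prin V O (clsSp P Q a M b) (mon g b * f ^ M) := by
  have h := (Prin.prod Finset.univ fun j _ => (hQ j).pow (b j).toNat).mul
    (hP.pow (M - ∑ j, a j * (b j).toNat))
  have e : (∏ j, (g j * f ^ a j) ^ (b j).toNat) * f ^ (M - ∑ j, a j * (b j).toNat) =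
      mon g b * f ^ M := by
    have e1 : (∏ j, (g j * f ^ a j) ^ (b j).toNat) = mon g b * f ^ (∑ j, a j * (b j).toNat) := by
      rw [mon, ← Finset.prod_pow_eq_pow_sum, ← Finset.prod_mul_distrib]
      refine Finset.prod_congr rfl fun j _ => ?_
      rw [mul_pow, ← pow_mul]
      congr 1
      conv_rhs => rw [← Int.toNat_of_nonneg (hb j), zpow_natCast]
    rw [e1, mul_assoc, ← pow_add, Nat.add_sub_cancel' hM]
  rw [← e]
  exact h

end

end CB

open CB
open Pool.Agent.LU2 (locV IsPar Mono le_locV locV_mono locV_le locV_inv locV_mem locV_locV)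

section

variable {k K : Type u} [Field k] [Field K] [Algebra k K]

/-- **Row E6c** (the blowing up of a finite set of classes). -/
theorem rowE6c {P : Submodule k K}
    (hP : IsModel P) {N : ℕ} {Q : Fin N → Submodule k K} (hQ : ∀ j, IsModel (Q j))
    (a : Fin N → ℕ) (A : Finset (Fin N → ℤ)) (hA : A.Nonempty) (hpos : ∀ b ∈ A, ∀ j, 0 ≤ b j) :
    ∃ (E : Submodule k K) (_ : ℕ), IsModel E ∧
      ∀ V : ValuationSubring K, ZDim k V → ∀ f, IsMin V P f → ∀ g : Fin N → K,
        (∀ j, g j ≠ 0 ∧ (∀ q ∈ Q j, q / (g j * f ^ a j) ∈ NV V P) ∧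
          ∃ q ∈ Q j, V.valuation (q / (g j * f ^ a j)) = 1) →
        ∀ b₀ ∈ A, (∀ b ∈ A, mon g (b - b₀) ∈ V) →
          ∃ ε, IsMin V (P * E) ε ∧ NV V (P * E) =
            locV V (ncl (Algebra.adjoin k ((NV V P : Set K) ∪
              {z | ∃ b ∈ A, z = mon g (b - b₀)}))) := by
  classical
  set M : ℕ := ∑ b ∈ A, ∑ j, a j * (b j).toNat with hMdef
  have hM : ∀ b ∈ A, ∑ j, a j * (b j).toNat ≤ M := fun b hb =>
    Finset.single_le_sum (f := fun b : Fin N → ℤ => ∑ j, a j * (b j).toNat)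
      (fun _ _ => Nat.zero_le _) hb
  set E : Submodule k K := ⨆ b ∈ A, clsSp P Q a M b with hEdef
  have hle : ∀ b ∈ A, clsSp P Q a M b ≤ E := fun b hb => le_iSup₂_of_le b hb le_rfl
  have hE : IsModel E := by
    refine ⟨Submodule.fg_biSup A _ fun b _ => (clsSp_model hP hQ a M b).fg, fun h => ?_⟩
    obtain ⟨b, hb⟩ := hA
    refine (clsSp_model hP hQ a M b).ne (le_bot_iff.1 ?_)
    rw [← h]
    exact hle b hb
  refine ⟨E, M, hE, ?_⟩
  intro V hV f hf g hg b₀ hb₀ hmin
  have hVo := hV.ov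
  have hg0 : ∀ j, g j ≠ 0 := fun j => (hg j).1
  have hPr : Prin V (NV V P) P f := Prin.of_isMin hf
  have hQr : ∀ j, Prin V (NV V P) (Q j) (g j * f ^ a j) := fun j =>
    ⟨mul_ne_zero (hg0 j) (pow_ne_zero _ hf.ne), (hg j).2.1, (hg j).2.2⟩
  have hpr : ∀ b ∈ A, Prin V (NV V P) (clsSp P Q a M b) (mon g b * f ^ M) := fun b hb =>
    clsSp_prin (hpos b hb) (hM b hb) hPr hQr
  set B : Subalgebra k K := Algebra.adjoin k ((NV V P : Set K) ∪
    {z | ∃ b ∈ A, z = mon g (b - b₀)}) with hB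
  have hNB : NV V P ≤ B := fun x hx => Algebra.subset_adjoin (Or.inl hx)
  have hmB : ∀ b ∈ A, mon g (b - b₀) ∈ B := fun b hb =>
    Algebra.subset_adjoin (Or.inr ⟨b, hb, rfl⟩)
  have hBV : ∀ x ∈ B, x ∈ V := by
    have : B ≤ valg hVo := by
      refine Algebra.adjoin_le ?_
      rintro x (hx | ⟨b, hb, rfl⟩)
      · exact NV_le hVo hP x hx
      · exact hmin b hb
    exact fun x hx => this hx
  obtain ⟨ε, hε, hε1⟩ := (hpr b₀ hb₀).ex
  have hfM : f ^ M ≠ 0 := pow_ne_zero _ hf.ne
  have hm0 : ∀ b, mon g b ≠ 0 := mon_ne_zero hg0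
  have hε0 : ε ≠ 0 := by
    rintro rfl
    rw [zero_div, map_zero] at hε1
    exact zero_ne_one hε1
  have hu : mon g b₀ * f ^ M / ε ∈ NV V P := by
    have h := NV_inv ((hpr b₀ hb₀).div ε hε) hε1
    rwa [inv_div] at h
  have hdiv : ∀ h ∈ E, h / ε ∈ B := by
    have hE' : E ≤ (Subalgebra.toSubmodule B).comap (LinearMap.mulRight k ε⁻¹) := by
      refine iSup₂_le fun b hb => fun h hh => ?_
      show h * ε⁻¹ ∈ B
      have e : h * ε⁻¹ = h / (mon g b * f ^ M) * mon g (b - b₀) * (mon g b₀ * f ^ M / ε) := by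
        rw [mon_sub hg0]
        have := hm0 b
        have := hm0 b₀
        field_simp
      rw [e]
      exact B.mul_mem (B.mul_mem (hNB ((hpr b hb).div h hh)) (hmB b hb)) (hNB hu)
    intro h hh
    have := hE' hh
    rw [div_eq_mul_inv]
    exact this
  have hminE : IsMin V E ε := ⟨hle b₀ hb₀ hε, hε0, fun h hh => hBV _ (hdiv h hh)⟩
  have hmin' := hf.mul hminE
  refine ⟨f * ε, hmin', ?_⟩
  apply le_antisymm
  · rw [NV_eq hmin']
    refine locV_mono (ncl_mono ?_)
    rw [ch_mul hf.mem hf.ne hminE.mem hminE.ne]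
    refine sup_le ?_ (ch_le_iff.2 hdiv)
    exact ch_le_iff.2 fun x hx => hNB (hPr.div x hx)
  · apply locV_ncl_le_NV
    have hNN : NV V P ≤ NV V (P * E) := NV_mono (RV_le_mul_left hVo hP hE)
    refine Algebra.adjoin_le ?_
    rintro x (hx | ⟨b, hb, rfl⟩)
    · exact hNN hx
    · obtain ⟨q, hq, hq1⟩ := (hpr b hb).ex
      have hq0 : q ≠ 0 := by
        rintro rfl
        rw [zero_div, map_zero] at hq1
        exact zero_ne_one hq1
      have h1 : q / ε ∈ NV V (P * E) :=
        RV_le_NV (RV_le_mul_right hVo hP hE (div_mem_RV hminE (hle b hb hq)))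
      have h2 : (q / (mon g b * f ^ M))⁻¹ ∈ NV V (P * E) :=
        hNN (NV_inv ((hpr b hb).div q hq) hq1)
      have h3 : ε / (mon g b₀ * f ^ M) ∈ NV V (P * E) := hNN ((hpr b₀ hb₀).div ε hε)
      have e : mon g (b - b₀) = q / ε * (q / (mon g b * f ^ M))⁻¹ * (ε / (mon g b₀ * f ^ M)) := by
        rw [mon_sub hg0]
        have := hm0 b
        have := hm0 b₀
        field_simp
      show mon g (b - b₀) ∈ NV V (P * E)
      rw [e]
      exact Subalgebra.mul_mem _ (Subalgebra.mul_mem _ h1 h2) h3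

end

end Pool.Agent.TG
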